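import Mathlib

set_option autoImplicit false

/-!
# All generator pairs other than `(a_0, x_0)` generate anti-tori
-/

namespace Pool.Agent.Results.MP_216313_al.AllAntiTori

open Polynomial

universe u

/-- The relators `a_i x_j (x_{i+j} a_{i-j})⁻¹`, where `a_i` is the generator `Sum.inl i` and `x_j`
is the generator `Sum.inr j`. -/
def rels (X : Type u) [AddCommGroup X] : Set (FreeGroup (X ⊕ X)) :=
  {r | ∃ i j : X, r = FreeGroup.of (Sum.inl i) * FreeGroup.of (Sum.inr j) *
    (FreeGroup.of (Sum.inr (i + j)) * FreeGroup.of (Sum.inl (i - j)))⁻¹}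

/-- The group `G_X`. -/
abbrev GX (X : Type u) [AddCommGroup X] : Type u := PresentedGroup (rels X)

/-- The generator `a_i`. -/
def a {X : Type u} [AddCommGroup X] (i : X) : GX X := PresentedGroup.of (Sum.inl i)

/-- The generator `x_j`. -/
def x {X : Type u} [AddCommGroup X] (j : X) : GX X := PresentedGroup.of (Sum.inr j)

/-- The elements `g` and `h` generate an anti-torus. -/
def AntiTorus {G : Type*} [Group G] (g h : G) : Prop :=
  ∀ p q : ℤ, p ≠ 0 → q ≠ 0 → g ^ p * h ^ q ≠ h ^ q * g ^ p

section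

variable {S : Type*} [CommRing S]

/-- Affine permutations. -/
def aff (r : Sˣ) (b : S) : Equiv.Perm S where
  toFun v := r * v + b
  invFun v := ↑r⁻¹ * (v - b)
  left_inv v := by simp
  right_inv v := by simp

theorem aff_app (r : Sˣ) (b v : S) : aff r b v = r * v + b := rfl

theorem aff_pow (r : Sˣ) (b v : S) (n : ℕ) :
    (1 - (r : S)) * ((aff r b ^ n) v) = (1 - (r : S)) * ((r : S) ^ n * v) +
      (1 - (r : S) ^ n) * b := by
  induction n generalizing v with
  | zero => simp
  | succ n ih =>
    rw [pow_succ, Equiv.Perm.mul_apply, ih, aff_app]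
    ring

end

/-- The opposite action of the integers. -/
@[reducible] def opMod (X : Type u) [AddCommGroup X] : Module ℤᵐᵒᵖ X :=
  Module.compHom X (RingEquiv.toOpposite ℤ).symm.toRingHom

attribute [local instance] opMod

theorem opCentral (X : Type u) [AddCommGroup X] : IsCentralScalar ℤ X := ⟨fun _ _ => rfl⟩

attribute [local instance] opCentral

/-- The ring of coefficients: the group `X` as an ideal of square zero. -/
abbrev Rx (X : Type u) [AddCommGroup X] := TrivSqZeroExt ℤ X

variable {X : Type u} [AddCommGroup X]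

theorem nzd_of_eval {P : (Rx X)[X]} (c : Rx X) (h : IsUnit (P.eval c)) :
    P ∈ nonZeroDivisors (Rx X)[X] := by
  rw [Polynomial.mem_nonZeroDivisors_iff]
  intro b hb
  have h1 := congrArg (Polynomial.eval c) hb
  rw [eval_smul, eval_zero, smul_eq_mul] at h1
  exact (h.mul_left_eq_zero).1 h1

theorem nzd_X : (Polynomial.X : (Rx X)[X]) ∈ nonZeroDivisors (Rx X)[X] :=
  nzd_of_eval 1 (by simp)

theorem nzd_one_sub : (1 - Polynomial.X : (Rx X)[X]) ∈ nonZeroDivisors (Rx X)[X] :=
  nzd_of_eval 0 (by simp)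

theorem nzd_one_sub_two : (1 - 2 * Polynomial.X : (Rx X)[X]) ∈ nonZeroDivisors (Rx X)[X] :=
  nzd_of_eval 0 (by simp)

section

variable {S : Type*} [CommRing S] (im : (Rx X)[X] →+* S)

/-- The group `X` inside the ring. -/
noncomputable def io (i : X) : S := im (Polynomial.C (TrivSqZeroExt.inr i))

theorem io_add (i j : X) : io im (i + j) = io im i + io im j := by simp [io]
theorem io_sub (i j : X) : io im (i - j) = io im i - io im j := by simp [io]

/-- The generators. -/
noncomputable def gen (ux ra : Sˣ) : X ⊕ X → Equiv.Perm S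
  | Sum.inl i => aff ra (io im i)
  | Sum.inr j => aff ux ((1 - ux) * io im j)

variable {im}

theorem gen_rels {ux ra : Sˣ} (hra : (ra : S) * (1 - ux) = 1 - 2 * ux) :
    ∀ r ∈ rels X, FreeGroup.lift (gen im ux ra) r = 1 := by
  rintro _ ⟨i, j, rfl⟩
  rw [map_mul, map_mul, map_inv, map_mul, FreeGroup.lift_apply_of, FreeGroup.lift_apply_of,
    FreeGroup.lift_apply_of, FreeGroup.lift_apply_of, mul_inv_eq_one]
  ext1 v
  simp only [Equiv.Perm.mul_apply, gen, aff_app, io_add, io_sub]
  linear_combination io im j * hra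

theorem main {ux ra : Sˣ} (hra : (ra : S) * (1 - ux) = 1 - 2 * ux)
    (hux : (ux : S) = im Polynomial.X) (hinj : Function.Injective im)
    {i j : X} {p q : ℕ} (hp : p ≠ 0) (hq : q ≠ 0)
    (h : a i ^ p * x j ^ q = x j ^ q * a i ^ p) : i = 0 ∧ j = 0 := by
  have h1 := congrArg (PresentedGroup.toGroup (gen_rels (im := im) hra)) h
  rw [map_mul, map_mul, map_pow, map_pow, a, x, PresentedGroup.toGroup.of,
    PresentedGroup.toGroup.of] at h1
  simp only [gen] at h1
  set A : Equiv.Perm S := aff ra (io im i) with hA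
  set B : Equiv.Perm S := aff ux ((1 - ux) * io im j) with hB
  have hB1 : ∀ n : ℕ, (B ^ n) (io im j) = io im j := by
    intro n
    induction n with
    | zero => rfl
    | succ n ih =>
      rw [pow_succ, Equiv.Perm.mul_apply]
      have : B (io im j) = io im j := by
        rw [hB, aff_app]; ring
      rw [this, ih]
  have h2 := congrArg (fun f : Equiv.Perm S => f (io im j)) h1
  simp only [Equiv.Perm.mul_apply, hB1] at h2
  set w := (A ^ p) (io im j) with hw
  have h3 := aff_pow ux ((1 - ux) * io im j) w q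
  rw [← hB, ← h2] at h3
  have h4 := aff_pow ra (io im i) (io im j) p
  rw [← hA, ← hw] at h4
  set r : S := (ra : S) with hr
  set z : S := (ux : S) with hz
  have h6 : r ^ p * (1 - z) ^ p = (1 - 2 * z) ^ p := by rw [← mul_pow, hra]
  have key : (1 - z) * (1 - z ^ q) * ((1 - z) ^ p - (1 - 2 * z) ^ p) *
      ((1 - z) * io im i - z * io im j) = 0 := by
    have e1 : (1 - z) * (1 - z ^ q) * (w - io im j) = 0 := by linear_combination h3
    have e2 : (1 - r) * (w - io im j) = (1 - r ^ p) * (io im i - (1 - r) * io im j) := by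
      linear_combination h4
    have e3 : (1 - z) * (io im i - (1 - r) * io im j) = (1 - z) * io im i - z * io im j := by
      linear_combination io im j * hra
    have e4 : (1 - z) ^ p * (1 - r ^ p) = (1 - z) ^ p - (1 - 2 * z) ^ p := by
      linear_combination -h6
    calc _ = (1 - z) * (1 - z ^ q) * ((1 - z) ^ p * (1 - r ^ p)) *
        ((1 - z) * (io im i - (1 - r) * io im j)) := by rw [e3, e4]
      _ = (1 - z) ^ p * (1 - z) * (1 - r) * ((1 - z) * (1 - z ^ q) * (w - io im j)) := by
        linear_combination (-(1 - z) ^ p * (1 - z) * ((1 - z) * (1 - z ^ q))) * e2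
      _ = 0 := by rw [e1, mul_zero]
  have key2 : (1 - Polynomial.X) * (1 - Polynomial.X ^ q) *
      ((1 - Polynomial.X) ^ p - (1 - 2 * Polynomial.X) ^ p) *
      ((1 - Polynomial.X) * Polynomial.C (TrivSqZeroExt.inr i) -
        Polynomial.X * Polynomial.C (TrivSqZeroExt.inr j)) = (0 : (Rx X)[X]) := by
    apply hinj
    rw [map_zero, ← key, hux]
    simp only [map_mul, map_sub, map_one, map_pow, map_ofNat, io]
  have n1 : (1 - Polynomial.X : (Rx X)[X]) ∈ nonZeroDivisors (Rx X)[X] := nzd_one_sub
  have n2 : (1 - Polynomial.X ^ q : (Rx X)[X]) ∈ nonZeroDivisors (Rx X)[X] :=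
    nzd_of_eval 0 (by simp [hq])
  have n3 : ((1 - Polynomial.X) ^ p - (1 - 2 * Polynomial.X) ^ p : (Rx X)[X]) ∈
      nonZeroDivisors (Rx X)[X] := by
    apply nzd_of_eval 1
    have : eval 1 ((1 - Polynomial.X) ^ p - (1 - 2 * Polynomial.X) ^ p : (Rx X)[X]) =
        -(-1) ^ p := by
      simp only [eval_sub, eval_pow, eval_one, eval_X, eval_mul, eval_ofNat, sub_self,
        zero_pow hp, zero_sub, mul_one]
      norm_num
    rw [this]
    exact ((isUnit_one.neg).pow p).neg
  have n4 := mul_mem (mul_mem n1 n2) n3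
  have h7 := (mul_left_mem_nonZeroDivisors_eq_zero_iff n4).1 key2
  have c0 := congrArg (fun P => coeff P 0) h7
  have c1 := congrArg (fun P => coeff P 1) h7
  have c1' : coeff ((1 - Polynomial.X) * Polynomial.C (TrivSqZeroExt.inr i) -
        Polynomial.X * Polynomial.C (TrivSqZeroExt.inr j) : (Rx X)[X]) 1 =
        - TrivSqZeroExt.inr i - TrivSqZeroExt.inr j := by
    rw [sub_mul, one_mul, coeff_sub, coeff_sub, coeff_X_mul, coeff_X_mul]
    simp [coeff_C]
  have c0' : coeff ((1 - Polynomial.X) * Polynomial.C (TrivSqZeroExt.inr i) -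
        Polynomial.X * Polynomial.C (TrivSqZeroExt.inr j) : (Rx X)[X]) 0 =
        TrivSqZeroExt.inr i := by
    simp
  simp only [c1', coeff_zero] at c1
  simp only [c0', coeff_zero] at c0
  have hi : i = 0 := TrivSqZeroExt.inr_injective (by rw [c0]; simp)
  subst hi
  refine ⟨rfl, TrivSqZeroExt.inr_injective (R := ℤ) ?_⟩
  rw [TrivSqZeroExt.inr_zero] at c1 ⊢
  have := neg_eq_zero.1 ((by simpa using c1 : -(TrivSqZeroExt.inr j : Rx X) = 0))
  exact this

end

theorem exists_ring (R : Type u) [CommRing R] : ∃ (S : Type u) (_ : CommRing S) (f : R →+* S),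
    Function.Injective f ∧ ∀ P ∈ nonZeroDivisors R, IsUnit (f P) :=
  ⟨Localization (nonZeroDivisors R), inferInstance, algebraMap _ _,
    IsLocalization.injective (Localization (nonZeroDivisors R)) le_rfl, fun P hP =>
    IsLocalization.map_units (Localization (nonZeroDivisors R)) ⟨P, hP⟩⟩

/-- The representation over the total ring of fractions of the ring of polynomials. -/
theorem main' {i j : X} {p q : ℕ} (hp : p ≠ 0) (hq : q ≠ 0)
    (h : a i ^ p * x j ^ q = x j ^ q * a i ^ p) : i = 0 ∧ j = 0 := by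
  obtain ⟨S, _, im, hinj, hu⟩ := exists_ring (Rx X)[X]
  obtain ⟨ux, hux⟩ := hu _ nzd_X
  obtain ⟨u1, hu1⟩ := hu _ nzd_one_sub
  obtain ⟨u2, hu2⟩ := hu _ nzd_one_sub_two
  rw [map_sub, map_one, ← hux] at hu1
  rw [map_sub, map_one, map_mul, map_ofNat, ← hux] at hu2
  refine main (im := im) (ux := ux) (ra := u2 * u1⁻¹) ?_ hux hinj hp hq h
  rw [← hu1, ← hu2, ← Units.val_mul, inv_mul_cancel_right]

/-- For every abelian group `X` and all `(i, j) ≠ (0, 0)`, the elements `a_i` and `x_j` of `G_X`
generate an anti-torus. -/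
theorem result (X : Type u) [AddCommGroup X] (i j : X) (hij : (i, j) ≠ (0, 0)) :
    AntiTorus (a i) (x j) := by
  intro p q hp hq h
  apply hij
  have h1 : Commute (a i ^ p) (x j ^ q) := h
  have h2 : Commute (a i ^ p.natAbs) (x j ^ q.natAbs) := by
    rcases Int.natAbs_eq p with hp' | hp' <;> rcases Int.natAbs_eq q with hq' | hq' <;>
      rw [hp', hq'] at h1 <;> simpa only [zpow_neg, zpow_natCast, Commute.inv_left_iff,
        Commute.inv_right_iff] using h1
  obtain ⟨rfl, rfl⟩ := main' (Int.natAbs_ne_zero.2 hp) (Int.natAbs_ne_zero.2 hq) h2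
  rfl

end Pool.Agent.Results.MP_216313_al.AllAntiTori
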